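import Pool.Agent.Helper60.CP.Stm2
import Pool.Agent.H206R2.Rot.TA
import Pool.Agent.H206R2.Rot.TG

/-!
# Parts 2T and 2R: `U(n)`-invariant metrics on `S^(2n)`
-/

set_option autoImplicit false

open Real Set MeasureTheory
open scoped ContDiff

namespace Pool.Agent.Helper64.CP

open Pool.Agent.Helper60.CP Pool.Agent.H206R2

lemma prof_f {L : ℝ} {f h : ℝ → ℝ} (H : IsProfileS L f h) : Rot.IsProfile L f :=
  ⟨H.pos, H.smooth_f, H.f_odd, H.f_odd_L, H.f_pos, H.f_deriv, H.f_deriv_L⟩

lemma prof_h {L : ℝ} {f h : ℝ → ℝ} (H : IsProfileS L f h) : Rot.IsProfile L h :=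
  ⟨H.pos, H.smooth_h, H.h_odd, H.h_odd_L, H.h_pos, H.h_deriv, H.h_deriv_L⟩

/-- the asymmetric case: the well of `f` ends before the well of `h` begins -/
lemma common_aux {L R : ℝ} {f h : ℝ → ℝ} (hf : Continuous f) (hh : Continuous h)
    (hcr : ∀ r ∈ Ioo 0 L, f r = h r → deriv f r * deriv h r < 0 → R < f r)
    {S S' a b a' b' : ℝ} (hS : R < S) (hS' : R < S') (W : Rot.Wall L f S a b)
    (W' : Rot.Wall L h S' a' b') (hlt : b < a') :
    ∃ s₀ ∈ Ioo 0 L, R < f s₀ ∧ R < h s₀ := by
  have hb0 : 0 < b := W.apos.trans_le W.ab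
  have ha'L : a' < L := W'.ab.trans_lt W'.bL
  by_cases h1 : R < h b
  · exact ⟨b, ⟨hb0, W.bL⟩, by rw [W.fb]; exact hS, h1⟩
  by_cases h2 : R < f a'
  · exact ⟨a', ⟨W'.apos, ha'L⟩, h2, by rw [W'.fa]; exact hS'⟩
  push Not at h1 h2
  have hc : ContinuousOn (fun r => f r - h r) (Icc b a') := (hf.sub hh).continuousOn
  obtain ⟨z, hz, hz0⟩ := intermediate_value_Icc' hlt.le hc
    (show (0 : ℝ) ∈ Icc (f a' - h a') (f b - h b) from
      ⟨by rw [W'.fa]; linarith, by rw [W.fb]; linarith⟩)
  have hz0' : f z = h z := by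
    simp only at hz0
    linarith
  have hz1 : b ≤ z := hz.1
  have hz2 : z ≤ a' := hz.2
  have d1 := W.dec z hz1 (hz2.trans ha'L.le)
  have d2 := W'.inc z (hb0.le.trans hz1) hz2
  have hzm : z ∈ Ioo 0 L := ⟨hb0.trans_le hz1, hz2.trans_lt ha'L⟩
  have h3 := hcr z hzm hz0' (mul_neg_of_neg_of_pos d1 d2)
  exact ⟨z, hzm, h3, by rw [← hz0']; exact h3⟩

theorem t_2T : S2_T := by
  intro L R f h H hR hcf hch hcr
  obtain ⟨S, a, b, hS, W⟩ := Rot.TA.exists_wall (prof_f H) hR
    (fun r h0 h1 h2 => hcf r ⟨h0, h1⟩ h2)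
  obtain ⟨S', a', b', hS', W'⟩ := Rot.TA.exists_wall (prof_h H) hR
    (fun r h0 h1 h2 => hch r ⟨h0, h1⟩ h2)
  rcases lt_or_ge b a' with hlt | hge
  · exact common_aux H.smooth_f.continuous H.smooth_h.continuous hcr hS hS' W W' hlt
  rcases lt_or_ge b' a with hlt' | hge'
  · obtain ⟨s, hs, h1, h2⟩ := common_aux H.smooth_h.continuous H.smooth_f.continuous
      (fun r hr h1 h2 => by rw [h1]; exact hcr r hr h1.symm (by rwa [mul_comm])) hS' hS W' W hlt'
    exact ⟨s, hs, h2, h1⟩
  · -- the intervals meet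
    refine ⟨max a a', ⟨W.apos.trans_le (le_max_left _ _), max_lt (W.ab.trans_lt W.bL)
      (W'.ab.trans_lt W'.bL)⟩, ?_, ?_⟩
    · exact hS.trans_le (W.mid _ (le_max_left _ _) (max_le W.ab hge))
    · exact hS'.trans_le (W'.mid _ (le_max_right _ _) (max_le hge' W'.ab))

lemma inner_re_hasDeriv {n : ℕ} (x : Cn n) {y : ℝ → Cn n} {y' : Cn n} {t : ℝ}
    (hy : HasDerivAt y y' t) :
    HasDerivAt (fun t => (inner ℂ x (y t)).re) ((inner ℂ x y').re) t := by
  have h1 : HasDerivAt (fun t => inner ℂ x (y t)) (inner ℂ x y') t :=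
    ((innerSL ℂ x).restrictScalars ℝ).hasFDerivAt.comp_hasDerivAt t hy
  exact (Complex.reCLM.hasFDerivAt.comp_hasDerivAt t h1)

theorem t_2R : S2_R := by
  intro n γ v T hv hT hγ hper
  obtain ⟨r, z, hr, hz, hnz, hγe, h1, h2, h3⟩ := hγ
  obtain ⟨hr1, hr2⟩ := cd2 hr
  obtain ⟨hz1, hz2⟩ := cd2 hz
  have harg : ∀ x : ℝ, π * x / π = x := fun x => by
    have := Real.pi_ne_zero
    field_simp
  have hds : deriv Real.sin = Real.cos := Real.deriv_sin
  have e1 : ∀ t, deriv (deriv r) t = Real.sin (r t) * Real.cos (r t) * ‖deriv z t‖ ^ 2 := by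
    intro t
    rw [h1 t, hds]
    ring
  have e3 : ∀ t, deriv r t ^ 2 + Real.sin (r t) ^ 2 * ‖deriv z t‖ ^ 2 = v ^ 2 := by
    intro t
    rw [← h3 t]
    ring
  have hp1 : ∀ t, (Real.sin (r (t + T)) : ℂ) • z (t + T) = (Real.sin (r t) : ℂ) • z t := by
    intro t
    have := congrArg Prod.fst (hper t)
    rw [hγe, hγe] at this
    simpa only [harg] using this
  have hp2 : ∀ t, Real.cos (r (t + T)) = Real.cos (r t) := by
    intro t
    have := congrArg Prod.snd (hper t)
    rw [hγe, hγe] at this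
    simpa only [harg] using this
  -- first derivative of `Re ⟨z, z'⟩ = 0`
  have hzz : ∀ t, (inner ℂ (z t) (deriv z t)).re = 0 := by
    intro t
    have hn : (fun t => (inner ℂ (z t) (z t) : ℂ)) = fun _ => (1 : ℂ) := by
      funext s
      rw [inner_self_eq_norm_sq_to_K, hnz]
      simp
    have hd : HasDerivAt (fun t => (inner ℂ (z t) (z t) : ℂ))
        (inner ℂ (z t) (deriv z t) + inner ℂ (deriv z t) (z t)) t := (hz1 t).inner ℂ (hz1 t)
    rw [hn] at hd
    have h0 := hd.unique (hasDerivAt_const t (1 : ℂ))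
    have h4 := congrArg Complex.re h0
    rw [Complex.add_re, ← inner_conj_symm (deriv z t) (z t), Complex.conj_re] at h4
    simp only [Complex.zero_re] at h4
    linarith
  have hzz2 : ∀ t, (inner ℂ (z t) (deriv (deriv z) t)).re = -‖deriv z t‖ ^ 2 := by
    intro t
    have hd : HasDerivAt (fun t => (inner ℂ (z t) (deriv z t) : ℂ))
        (inner ℂ (z t) (deriv (deriv z) t) + inner ℂ (deriv z t) (deriv z t)) t :=
      (hz1 t).inner ℂ (hz2 t)
    have hd' : HasDerivAt (fun t => (inner ℂ (z t) (deriv z t) : ℂ).re)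
        ((inner ℂ (z t) (deriv (deriv z) t) + inner ℂ (deriv z t) (deriv z t) : ℂ).re) t :=
      Complex.reCLM.hasFDerivAt.comp_hasDerivAt t hd
    have hc : (fun t => (inner ℂ (z t) (deriv z t) : ℂ).re) = fun _ => (0 : ℝ) := funext hzz
    rw [hc] at hd'
    have h0 := hd'.unique (hasDerivAt_const t (0 : ℝ))
    rw [Complex.add_re, inner_self_eq_norm_sq_to_K] at h0
    have h5 : (((‖deriv z t‖ : ℝ) : ℂ) ^ 2).re = ‖deriv z t‖ ^ 2 := by
      rw [← Complex.ofReal_pow, Complex.ofReal_re]
    have h6 : ((RCLike.ofReal ‖deriv z t‖ : ℂ) ^ 2).re = ‖deriv z t‖ ^ 2 := h5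
    rw [h6] at h0
    linarith
  -- the momentum equation
  have hm : ∀ t, HasDerivAt (mom Real.sin Real.sin r z)
      (((2 * Real.sin (r t) * (Real.cos (r t) * deriv r t) : ℝ) : ℂ) • deriv z t +
        ((Real.sin (r t) ^ 2 : ℝ) : ℂ) • deriv (deriv z) t) t := by
    intro t
    have hmom : mom Real.sin Real.sin r z = fun t => ((Real.sin (r t) ^ 2 : ℝ) : ℂ) • deriv z t := by
      funext s
      unfold mom
      simp
    rw [hmom]
    have ha : HasDerivAt (fun t => Real.sin (r t) ^ 2)
        (2 * Real.sin (r t) * (Real.cos (r t) * deriv r t)) t := by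
      have := ((hr1 t).sin).pow 2
      refine this.congr_deriv ?_
      norm_num
    have hb := ha.ofReal_comp.smul (hz2 t)
    refine hb.congr_deriv ?_
    rw [add_comm]
  have hmeq : ∀ t, ∃ l : ℝ, ((2 * Real.sin (r t) * (Real.cos (r t) * deriv r t) : ℝ) : ℂ) • deriv z t +
        ((Real.sin (r t) ^ 2 : ℝ) : ℂ) • deriv (deriv z) t = (l : ℂ) • z t := by
    intro t
    obtain ⟨l, hl⟩ := h2 t
    refine ⟨l, ?_⟩
    rw [(hm t).deriv] at hl
    rw [← hl]
    simp
  set G : ℝ → Cn n := fun t => ((Real.sin (r t) : ℝ) : ℂ) • deriv (deriv z) t +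
    ((2 * Real.cos (r t) * deriv r t : ℝ) : ℂ) • deriv z t +
    ((Real.sin (r t) * ‖deriv z t‖ ^ 2 : ℝ) : ℂ) • z t with hG
  have hsG : ∀ t, ((Real.sin (r t) : ℝ) : ℂ) • G t = 0 := by
    intro t
    obtain ⟨l, hl⟩ := hmeq t
    have hlv : l = -(Real.sin (r t) ^ 2 * ‖deriv z t‖ ^ 2) := by
      have h7 := congrArg (fun w => (inner ℂ (z t) w : ℂ).re) hl
      simp only [inner_add_right, inner_smul_right, Complex.add_re, Complex.re_ofReal_mul, hzz,
        hzz2, mul_zero, zero_add] at h7
      rw [inner_self_eq_norm_sq_to_K, hnz] at h7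
      simp at h7
      linarith
    have h8 : ((Real.sin (r t) : ℝ) : ℂ) • G t =
        (((2 * Real.sin (r t) * (Real.cos (r t) * deriv r t) : ℝ) : ℂ) • deriv z t +
        ((Real.sin (r t) ^ 2 : ℝ) : ℂ) • deriv (deriv z) t) +
        ((Real.sin (r t) ^ 2 * ‖deriv z t‖ ^ 2 : ℝ) : ℂ) • z t := by
      simp only [hG, smul_add, smul_smul]
      push_cast
      rw [show (Complex.sin (r t)) * (Complex.sin (r t)) = Complex.sin (r t) ^ 2 by ring,
        show (Complex.sin (r t)) * (2 * Complex.cos (r t) * ((deriv r t : ℝ) : ℂ)) =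
          2 * Complex.sin (r t) * (Complex.cos (r t) * ((deriv r t : ℝ) : ℂ)) by ring,
        show (Complex.sin (r t)) * (Complex.sin (r t) * ((‖deriv z t‖ : ℝ) : ℂ) ^ 2) =
          Complex.sin (r t) ^ 2 * ((‖deriv z t‖ : ℝ) : ℂ) ^ 2 by ring]
      abel
    rw [h8, hl, hlv, ← add_smul]
    simp
  have hGc : Continuous G := by
    have c1 : Continuous (deriv (deriv z)) := by
      have h2' : ContDiff ℝ (1 + 1) z := by
        have : (1 + 1 : WithTop ℕ∞) = 2 := by norm_num
        rw [this]; exact hz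
      have h3' : ContDiff ℝ 1 (deriv z) := (contDiff_succ_iff_deriv.1 h2').2.2
      exact h3'.continuous_deriv (by norm_num)
    have c2 : Continuous (deriv z) := hz.continuous_deriv (by norm_num)
    have c3 : Continuous (deriv r) := hr.continuous_deriv (by norm_num)
    have c4 : Continuous r := hr.continuous
    have c5 : Continuous z := hz.continuous
    simp only [hG]
    fun_prop
  have hG0 : ∀ t, G t = 0 := by
    have hcl : IsClosed {t | G t = 0} := isClosed_eq hGc continuous_const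
    have hsub : {t | Real.sin (r t) ≠ 0} ⊆ {t | G t = 0} := by
      intro t ht
      have := hsG t
      rcases smul_eq_zero.1 this with h | h
      · exact absurd (by exact_mod_cast h) ht
      · exact h
    have hdense : Dense {t | Real.sin (r t) ≠ 0} := by
      have hcs : {t | Real.sin (r t) ≠ 0} = {t | Real.sin (r t) = 0}ᶜ := rfl
      rw [hcs, ← interior_eq_empty_iff_dense_compl, eq_empty_iff_forall_notMem]
      intro t ht
      have hev : (fun s => Real.sin (r s)) =ᶠ[nhds t] fun _ => (0 : ℝ) :=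
        mem_interior_iff_mem_nhds.1 ht
      have hd0 := ((hr1 t).sin).unique ((hasDerivAt_const t (0 : ℝ)).congr_of_eventuallyEq hev)
      have hs0 : Real.sin (r t) = 0 := hev.eq_of_nhds
      have hcne : Real.cos (r t) ≠ 0 := by
        intro h
        have := Real.sin_sq_add_cos_sq (r t)
        rw [hs0, h] at this
        norm_num at this
      have hr0 : deriv r t = 0 := by
        rcases mul_eq_zero.1 hd0 with h | h
        · exact absurd h hcne
        · exact h
      have := e3 t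
      rw [hr0, hs0] at this
      have hv2 : 0 < v ^ 2 := by positivity
      rw [← this] at hv2
      norm_num at hv2
    intro t
    have := hcl.closure_subset_iff.2 hsub
    rw [hdense.closure_eq] at this
    exact this (mem_univ t)
  by_cases hz0 : Real.sin (r 0) = 0
  · -- use the second component
    have hc0 : Real.cos (r 0) ≠ 0 := by
      intro h
      have := Real.sin_sq_add_cos_sq (r 0)
      rw [hz0, h] at this
      norm_num at this
    refine Rot.TG.osc_period hv hT (g := fun t => Real.cos (r t))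
      (g' := fun t => -Real.sin (r t) * deriv r t) (fun t => (hr1 t).cos) ?_ hp2 hc0
    intro t
    refine (((hr1 t).sin.neg).mul (hr2 t)).congr_deriv ?_
    have hc : Real.cos (r t) ^ 2 = 1 - Real.sin (r t) ^ 2 := by
      have := Real.sin_sq_add_cos_sq (r t); linarith
    have hval : (-fun x => Real.sin (r x)) t = -Real.sin (r t) := rfl
    rw [hval, e1, ← e3 t]
    ring
  · set x : Cn n := z 0 with hx
    refine Rot.TG.osc_period hv hT
      (g := fun t => (inner ℂ x (((Real.sin (r t) : ℝ) : ℂ) • z t) : ℂ).re)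
      (g' := fun t => (inner ℂ x (((Real.cos (r t) * deriv r t : ℝ) : ℂ) • z t +
        ((Real.sin (r t) : ℝ) : ℂ) • deriv z t) : ℂ).re) ?_ ?_ ?_ ?_
    · intro t
      refine inner_re_hasDeriv x ?_
      have hb := (((hr1 t).sin).ofReal_comp).smul (hz1 t)
      refine hb.congr_deriv ?_
      rw [add_comm]
    · intro t
      have hA : HasDerivAt (fun t => ((Real.cos (r t) * deriv r t : ℝ) : ℂ) • z t +
        ((Real.sin (r t) : ℝ) : ℂ) • deriv z t) (((-v ^ 2 : ℝ) : ℂ) • (((Real.sin (r t) : ℝ) : ℂ) • z t)) t := by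
        have hb := (((hr1 t).sin).ofReal_comp).smul (hz2 t)
        have hc := ((((hr1 t).cos).mul (hr2 t)).ofReal_comp).smul (hz1 t)
        refine (hc.add hb).congr_deriv ?_
        have hg := hG0 t
        simp only [hG] at hg
        have hg2 : ((Real.sin (r t) : ℝ) : ℂ) • deriv (deriv z) t =
            -(((2 * Real.cos (r t) * deriv r t : ℝ) : ℂ) • deriv z t +
              ((Real.sin (r t) * ‖deriv z t‖ ^ 2 : ℝ) : ℂ) • z t) := by
          rw [eq_neg_iff_add_eq_zero, ← hg]; abel
        rw [hg2, e1]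
        have hc : Real.cos (r t) ^ 2 = 1 - Real.sin (r t) ^ 2 := by
          have := Real.sin_sq_add_cos_sq (r t); linarith
        have hco : ((-Real.sin (r t) * deriv r t * deriv r t + Real.cos (r t) *
            (Real.sin (r t) * Real.cos (r t) * ‖deriv z t‖ ^ 2) : ℝ) : ℂ) -
            ((Real.sin (r t) * ‖deriv z t‖ ^ 2 : ℝ) : ℂ) =
            ((-v ^ 2 * Real.sin (r t) : ℝ) : ℂ) := by
          rw [← Complex.ofReal_sub]
          congr 1
          rw [← e3 t]
          linear_combination (Real.sin (r t) * ‖deriv z t‖ ^ 2) * hc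
        rw [smul_smul, ← Complex.ofReal_mul, ← hco]
        have hval : ((fun x => Real.cos (r x)) * deriv r) t = Real.cos (r t) * deriv r t := rfl
        rw [hval]
        push_cast
        module
      refine (inner_re_hasDeriv x hA).congr_deriv ?_
      rw [inner_smul_right, Complex.re_ofReal_mul]
    · intro t
      simp only [hp1]
    · rw [inner_smul_right, Complex.re_ofReal_mul, ← hx, inner_self_eq_norm_sq_to_K, hx, hnz]
      simpa using hz0

end Pool.Agent.Helper64.CP
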